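import Pool.Agent.N728.QU.AllG

set_option autoImplicit false

/-!
# Primes `f(m) + c - f(h)`, `f(n) = n² + (n + 1)² + (n + 2)²`

For every integer `c` with few small prime factors, not divisible by `3`, `|c| ≤ K H²`, and all but at most `ε H` of the
`h ≤ H`, the number of the `m ≤ M` for which `f(m) + k`, `k = c - f(h)`, is a prime is the number predicted by Hardy and
Littlewood, for all `M ≤ K H` simultaneously. For `c = f(0) = 5` these are the numbers `f(m) + 5 - f(h)`, `h = 0` being the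
case of the sums of three consecutive squares.

Proof (`Agent/N728/QU`): `f(n) = 3 n² + 6 n + 5` and `f(m) - f(h) + c = u v + c` with `u = m - h`,
`v = 3 (m + h) + 6 = 3 u + b'`, `b' = 6 h + 6` (and `c - u v` with `u = h - m`, `v = - 3 u + b'` for `m < h`). Bilinear
sums over `c ± u v` with an arbitrary bounded function of `v ∓ 3 u` do not change if a divisor of `u v`, composed of primes
of a suitable range, is moved from `u` to `v`; by the multiplication table phenomenon of Erdős few multiplicative windows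
contain such a divisor, and the off-diagonal terms are bounded by two applications of the Cauchy-Schwarz inequality and
the fundamental lemma of the sieve (functions with mean zero on the cells (residue class and block)). For the functions
constant on the cells the range is shifted, by moving divisors again, to `u ≤ v / (log v)^C`, where the theorem of
Bombieri and Vinogradov at the sharp level applies. All this is uniform in `c`.
-/

namespace Pool.Agent.Results.MP_63eb26_nt.ThinFamilyOfConstants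

open Finset

/-- `c` has few small prime factors beyond `s₀`: `∑_{p ∣ c, p > s} 1/p ≤ 1/√s` for all `s ≥ s₀`. -/
def Tame (s₀ : ℕ) (c : ℤ) : Prop :=
  c ≠ 0 ∧ ∀ s : ℕ, s₀ ≤ s → ∑ p ∈ c.natAbs.primeFactors.filter (fun p => s < p), 1 / (p : ℝ) ≤ 1 / √(s : ℝ)

/-- Every fixed `c ≠ 0`, for example `c = 1`, satisfies the condition with `s₀ = |c|`. -/
theorem tame_natAbs (c : ℤ) (h : c ≠ 0) : Tame c.natAbs c := by
  refine ⟨h, fun s hs => ?_⟩
  have h1 : c.natAbs.primeFactors.filter (fun p => s < p) = ∅ := by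
    rw [filter_eq_empty_iff]
    intro p hp hsp
    have := Nat.le_of_mem_primeFactors hp
    omega
  rw [h1, sum_empty]
  positivity

/-- The sum of three consecutive squares `f(n) = n² + (n + 1)² + (n + 2)²`. -/
def f (n : ℤ) : ℤ := n ^ 2 + (n + 1) ^ 2 + (n + 2) ^ 2

/-- The number of the `1 ≤ m ≤ M` with `f(m) + k` a (positive) prime. -/
def primeCount (k : ℤ) (M : ℕ) : ℕ := ((Icc 1 M).filter (fun m : ℕ => (f m + k).toNat.Prime)).card

/-- The sum of `1 / log (f(m) + k)` over the `1 ≤ m ≤ M` with `f(m) + k ≥ 2`. -/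
noncomputable def logSum (k : ℤ) (M : ℕ) : ℝ :=
  ∑ m ∈ (Icc 1 M).filter (fun m : ℕ => 2 ≤ f m + k), 1 / Real.log ((f m + k : ℤ) : ℝ)

/-- The number of the solutions of `f(m) + k ≡ 0` modulo `p`. -/
def omega (k : ℤ) (p : ℕ) : ℕ := ((range p).filter (fun m : ℕ => (p : ℤ) ∣ f m + k)).card

/-- The product of Hardy and Littlewood for `f(X) + k`, over the primes `p ≤ Z`. -/
noncomputable def series (k : ℤ) (Z : ℕ) : ℝ :=
  ∏ p ∈ (Ioc 0 Z).filter Nat.Prime, (1 - (omega k p : ℝ) / p) / (1 - 1 / (p : ℝ))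

/-- The conclusion for one `k`: the product is at least `κ`, and the number of primes `f(m) + k`, `m ≤ M`, is the
expected one up to `δ H / log H`, for all `M ≤ K H`. -/
def Good (κ δ : ℝ) (K H Z : ℕ) (k : ℤ) : Prop :=
  κ ≤ series k Z ∧ ∀ M : ℕ, M ≤ K * H → |(primeCount k M : ℝ) - series k Z * logSum k M| ≤ δ * (H / Real.log H)

open Classical in
/-- The number of the `1 ≤ h ≤ H` for which the conclusion fails for `k = c - (f(h))`. -/
noncomputable def exceptions (κ δ : ℝ) (c : ℤ) (K H Z : ℕ) : ℕ :=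
  ((Icc 1 H).filter (fun h : ℕ => ¬ Good κ δ K H Z (c - f h))).card

lemma Vg_eq (c : ℤ) (h m : ℕ) : Pool.Agent.N728.QU.Vg 3 6 1 c h m = f m + (c - f h) := by
  unfold Pool.Agent.N728.QU.Vg f
  ring

lemma adg {c : ℤ} (hc : ¬ (3 : ℤ) ∣ c) : Pool.Agent.N728.QU.Adg 3 6 c := by
  refine ⟨fun p hp h1 _ h3 => ?_, fun h => by norm_num at h⟩
  have h4 : p ∣ 3 := by exact_mod_cast h1
  rcases (Nat.dvd_prime Nat.prime_three).1 h4 with h5 | h5
  · exact hp.one_lt.ne' h5
  · rw [h5] at h3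
    exact hc (by exact_mod_cast h3)

/-- **Theorem.** -/
theorem result (s₀ : ℕ) :
    ∀ ε : ℝ, 0 < ε → ∃ κ : ℝ, 0 < κ ∧ ∀ (δ : ℝ) (K : ℕ), 0 < δ → ∃ Z₀ : ℕ, ∀ A : ℕ, ∃ H₀ : ℕ, ∀ H : ℕ, H₀ ≤ H →
      ∀ (c : ℤ) (Z : ℕ), Tame s₀ c → ¬ (3 : ℤ) ∣ c → c.natAbs ≤ K * H ^ 2 → Z₀ ≤ Z → (Z : ℝ) ≤ Real.log H ^ A →
      (exceptions κ δ c K H Z : ℝ) ≤ ε * H := by
  classical
  intro ε hε
  obtain ⟨κ, hκ, h1⟩ := Pool.Agent.N728.QU.finalGU 3 6 (by norm_num) s₀ ε hε
  refine ⟨κ, hκ, fun δ K hδ => ?_⟩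
  obtain ⟨Z₀, h2⟩ := h1 δ K hδ
  refine ⟨Z₀, fun A => ?_⟩
  obtain ⟨H₀, h3⟩ := h2 A
  refine ⟨H₀, fun H hH c Z hc h6 hcK hZ1 hZ2 => ?_⟩
  have h4 := h3 H hH Z c 1 hc (adg h6) (Or.inl rfl) hcK hZ1 hZ2
  refine le_trans (le_of_eq ?_) h4
  unfold exceptions
  congr 2
  apply filter_congr
  intro h hh
  unfold Good primeCount logSum series omega Pool.Agent.N728.QU.cntg Pool.Agent.N728.QU.Sqg
  simp only [Vg_eq]

end Pool.Agent.Results.MP_63eb26_nt.ThinFamilyOfConstants
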